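import Mathlib
import Pool.Agent.P.MP_c2502c_co.Defs
import Pool.Agent.K.MP_c2502c_co.C0

namespace Pool.Agent.Results.MP_c2502c_co.FanNotUpward1Planar

open Pool.Agent.P.MP_c2502c_co

theorem result : ∃ (n : ℕ) (D : Option (Fin n) → Option (Fin n) → Prop),
    (∀ v, ¬ Relation.TransGen D v v) ∧
    (∀ i : Fin n, D none (some i) ∨ D (some i) none) ∧
    (∀ i j : Fin n, D (some i) (some j) ∨ D (some j) (some i) ↔
      i.val + 1 = j.val ∨ j.val + 1 = i.val) ∧
    IsOuterpathGraph D ∧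
    ¬ ∃ G : PlaneDrawing D, DrawnUpward G ∧ AtMostCrossed G 1 :=
  Pool.Agent.P.MP_c2502c_co.main

end Pool.Agent.Results.MP_c2502c_co.FanNotUpward1Planar
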